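import Mathlib

/-!
# TW S_RED: the annihilator is reductive, pure linear algebra
-/

set_option autoImplicit false

namespace Pool.Agent.E8helper44.TW

open Matrix Module Polynomial
open scoped ComplexOrder

attribute [local instance 100] LieRing.ofAssociativeRing

/-! ### Engel and Cartan -/

theorem engel_vec {V : Type*} [AddCommGroup V] [Module ℂ V] [FiniteDimensional ℂ V]
    (K : LieSubalgebra ℂ (Module.End ℂ V)) (hK : ∀ k ∈ K, IsNilpotent k)
    (U : Submodule ℂ V) (hU : ∀ k ∈ K, ∀ u ∈ U, k u ∈ U) (hne : U ≠ ⊥) :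
    ∃ u ∈ U, u ≠ 0 ∧ ∀ k ∈ K, k u = 0 := by
  let U' : LieSubmodule ℂ K V := { U with lie_mem := fun {k u} hu => hU k k.2 u hu }
  have hnil : LieModule.IsNilpotent K U' := by
    rw [LieModule.isNilpotent_iff_forall' (R := ℂ)]
    intro x
    obtain ⟨m, hm⟩ := hK x x.2
    refine ⟨m, ?_⟩
    have key : ∀ (j : ℕ) (u : U'), ((((LieModule.toEnd ℂ K U' x) ^ j) u : U') : V) =
        ((x : Module.End ℂ V) ^ j) (u : V) := by
      intro j
      induction j with
      | zero => intro u; simp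
      | succ j ih =>
        intro u
        rw [pow_succ, pow_succ, Module.End.mul_apply, Module.End.mul_apply, ih]
        rfl
    refine LinearMap.ext fun u => Subtype.ext ?_
    rw [key, hm]
    rfl
  obtain ⟨u0, hu0, hu0'⟩ := (Submodule.ne_bot_iff U).1 hne
  have : Nontrivial U' := ⟨⟨⟨u0, hu0⟩, 0, fun h => hu0' (congrArg Subtype.val h)⟩⟩
  have := LieModule.nontrivial_max_triv_of_isNilpotent ℂ K U'
  obtain ⟨⟨u, hu⟩, hune⟩ := exists_ne (0 : LieModule.maxTrivSubmodule ℂ K U')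
  refine ⟨(u : V), u.2, fun h => hune (Subtype.ext (Subtype.ext h)), fun k hk => ?_⟩
  have h2 := (LieModule.mem_maxTrivSubmodule ℂ K U' u).1 hu ⟨k, hk⟩
  exact congrArg Subtype.val h2

variable {n : Type} [Fintype n] [DecidableEq n]

/-- The commutators of elements of `L`. -/
def bk (L : Submodule ℂ (Matrix n n ℂ)) : Submodule ℂ (Matrix n n ℂ) :=
  Submodule.span ℂ {y | ∃ u ∈ L, ∃ v ∈ L, y = u * v - v * u}

theorem bk_mem {L : Submodule ℂ (Matrix n n ℂ)} {u v : Matrix n n ℂ} (hu : u ∈ L) (hv : v ∈ L) :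
    u * v - v * u ∈ bk L := Submodule.subset_span ⟨u, hu, v, hv, rfl⟩

/-- the Lie algebra of endomorphisms given by a space of matrices -/
def toK (I : Submodule ℂ (Matrix n n ℂ)) (hI : ∀ x ∈ I, ∀ y ∈ I, x * y - y * x ∈ I) :
    LieSubalgebra ℂ (Module.End ℂ (n → ℂ)) where
  carrier := {f | (Matrix.toLinAlgEquiv' (R := ℂ) (n := n)).symm f ∈ I}
  add_mem' := fun {a b} ha hb => by
    simp only [Set.mem_ofPred_eq, map_add] at *
    exact I.add_mem ha hb
  zero_mem' := by simp only [Set.mem_ofPred_eq, map_zero]; exact I.zero_mem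
  smul_mem' := fun c a ha => by
    simp only [Set.mem_ofPred_eq, map_smul] at *
    exact I.smul_mem c ha
  lie_mem' := fun {a b} ha hb => by
    simp only [Set.mem_ofPred_eq] at *
    have : ⁅a, b⁆ = a * b - b * a := rfl
    change (Matrix.toLinAlgEquiv' (R := ℂ) (n := n)).symm ⁅a, b⁆ ∈ I
    rw [this, map_sub, map_mul, map_mul]
    exact hI _ ha _ hb

theorem mem_toK {I : Submodule ℂ (Matrix n n ℂ)} {hI : ∀ x ∈ I, ∀ y ∈ I, x * y - y * x ∈ I}
    {f : Module.End ℂ (n → ℂ)} : f ∈ toK I hI ↔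
    (Matrix.toLinAlgEquiv' (R := ℂ) (n := n)).symm f ∈ I := Iff.rfl

theorem mem_toK' {I : Submodule ℂ (Matrix n n ℂ)} {hI : ∀ x ∈ I, ∀ y ∈ I, x * y - y * x ∈ I}
    {x : Matrix n n ℂ} (hx : x ∈ I) : Matrix.toLinAlgEquiv' x ∈ toK I hI := by
  rw [mem_toK, AlgEquiv.symm_apply_apply]
  exact hx

theorem nil_iff (x : Matrix n n ℂ) : IsNilpotent (Matrix.toLinAlgEquiv' x) ↔ IsNilpotent x :=
  IsNilpotent.map_iff (Matrix.toLinAlgEquiv' (R := ℂ) (n := n)).injective

/-- Engel for spaces of matrices -/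
theorem engel_mat (I : Submodule ℂ (Matrix n n ℂ)) (hI : ∀ x ∈ I, ∀ y ∈ I, x * y - y * x ∈ I)
    (hn : ∀ x ∈ I, IsNilpotent x) (U : Submodule ℂ (n → ℂ)) (hU : ∀ k ∈ I, ∀ u ∈ U, k *ᵥ u ∈ U)
    (hne : U ≠ ⊥) : ∃ u ∈ U, u ≠ 0 ∧ ∀ k ∈ I, k *ᵥ u = 0 := by
  obtain ⟨u, hu, hu0, h⟩ := engel_vec (toK I hI) (fun k hk => by
    have := hn _ (mem_toK.1 hk)
    rw [← nil_iff] at this
    rwa [AlgEquiv.apply_symm_apply] at this) U (fun k hk u hu => by
    have := hU _ (mem_toK.1 hk) u hu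
    rwa [← Matrix.toLinAlgEquiv'_apply, AlgEquiv.apply_symm_apply] at this) hne
  refine ⟨u, hu, hu0, fun k hk => ?_⟩
  rw [← Matrix.toLinAlgEquiv'_apply]
  exact h _ (mem_toK' hk)

/-- Cartan's criterion for spaces of matrices -/
theorem cartan_nil (I : Submodule ℂ (Matrix n n ℂ)) (hI : ∀ x ∈ I, ∀ y ∈ I, x * y - y * x ∈ I)
    (ht : ∀ x ∈ I, ∀ y ∈ I, (x * y).trace = 0) : ∀ x ∈ bk I, IsNilpotent x := by
  have h0 : LieModule.traceForm ℂ (toK I hI) (n → ℂ) = 0 := by
    refine LinearMap.ext fun x => LinearMap.ext fun y => ?_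
    rw [LieModule.traceForm_apply_apply]
    have h1 : (LieModule.toEnd ℂ (toK I hI) (n → ℂ)) x ∘ₗ (LieModule.toEnd ℂ (toK I hI) (n → ℂ)) y
        = (x : Module.End ℂ (n → ℂ)) * (y : Module.End ℂ (n → ℂ)) := rfl
    rw [h1]
    have h2 := ht _ (mem_toK.1 x.2) _ (mem_toK.1 y.2)
    rw [← map_mul] at h2
    have h3 : LinearMap.trace ℂ (n → ℂ) (Matrix.toLin' ((Matrix.toLinAlgEquiv' (R := ℂ)
        (n := n)).symm ((x : Module.End ℂ (n → ℂ)) * (y : Module.End ℂ (n → ℂ))))) = 0 := by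
      rw [Matrix.trace_toLin'_eq]
      exact h2
    have h4 : Matrix.toLin' ((Matrix.toLinAlgEquiv' (R := ℂ)
        (n := n)).symm ((x : Module.End ℂ (n → ℂ)) * (y : Module.End ℂ (n → ℂ)))) =
        (x : Module.End ℂ (n → ℂ)) * (y : Module.End ℂ (n → ℂ)) :=
      (Matrix.toLinAlgEquiv' (R := ℂ) (n := n)).apply_symm_apply _
    rw [h4] at h3
    exact h3
  have h1 := LieModule.isNilpotent_derivedSeries_of_traceForm_eq_zero h0
  have h2 : ∀ d ∈ LieAlgebra.derivedSeries ℂ (toK I hI) 1,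
      IsNilpotent (d : Module.End ℂ (n → ℂ)) := by
    intro d hd
    exact LieModule.isNilpotent_toEnd_of_isNilpotent ℂ
      (LieAlgebra.derivedSeries ℂ (toK I hI) 1) (n → ℂ) ⟨d, hd⟩
  have h3 : ∀ x ∈ bk I, ∃ d ∈ LieAlgebra.derivedSeries ℂ (toK I hI) 1,
      (d : Module.End ℂ (n → ℂ)) = Matrix.toLinAlgEquiv' x := by
    intro x hx
    induction hx using Submodule.span_induction with
    | mem x hx =>
      obtain ⟨u, hu, v, hv, rfl⟩ := hx
      refine ⟨⁅(⟨_, mem_toK' hu⟩ : toK I hI), (⟨_, mem_toK' hv⟩ : toK I hI)⁆, ?_, ?_⟩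
      · rw [LieAlgebra.derivedSeries_def, LieAlgebra.derivedSeriesOfIdeal_succ,
          LieAlgebra.derivedSeriesOfIdeal_zero]
        exact LieSubmodule.lie_mem_lie trivial trivial
      · rw [map_sub, map_mul, map_mul]
        rfl
    | zero => exact ⟨0, zero_mem _, by rw [map_zero]; rfl⟩
    | add x y _ _ hx hy =>
      obtain ⟨d, hd, hd'⟩ := hx
      obtain ⟨e, he, he'⟩ := hy
      exact ⟨d + e, add_mem hd he, by rw [map_add, ← hd', ← he']; rfl⟩
    | smul c x _ hx =>
      obtain ⟨d, hd, hd'⟩ := hx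
      exact ⟨c • d, (LieAlgebra.derivedSeries ℂ (toK I hI) 1).toSubmodule.smul_mem c hd, by rw [map_smul, ← hd']; rfl⟩
  intro x hx
  obtain ⟨d, hd, hd'⟩ := h3 x hx
  rw [← nil_iff, ← hd']
  exact h2 d hd

/-- a matrix all whose powers have trace zero is nilpotent -/
theorem nilp_of_tr (z : Matrix n n ℂ) (h : ∀ k : ℕ, (z ^ (k + 1)).trace = 0) : IsNilpotent z := by
  -- `m = X * minpoly = X ^ k * r`
  have hint : IsIntegral ℂ z := Matrix.isIntegral z
  set m : ℂ[X] := X * minpoly ℂ z with hm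
  have hm0 : m ≠ 0 := mul_ne_zero X_ne_zero (minpoly.ne_zero hint)
  have hmz : aeval z m = 0 := by rw [hm, map_mul, minpoly.aeval, mul_zero]
  obtain ⟨r, hr, hr'⟩ := Polynomial.exists_eq_pow_rootMultiplicity_mul_and_not_dvd m hm0 0
  rw [C_0, sub_zero] at hr hr'
  set k := rootMultiplicity 0 m
  have hk : k ≠ 0 := by
    intro hk
    rw [hk, pow_zero, one_mul] at hr
    exact hr' (hr ▸ ⟨minpoly ℂ z, rfl⟩)
  obtain ⟨k', hk'⟩ := Nat.exists_eq_succ_of_ne_zero hk
  have hcop : IsCoprime (X ^ k : ℂ[X]) r :=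
    IsCoprime.pow_left ((irreducible_X.coprime_iff_not_dvd).2 hr')
  obtain ⟨u, v, huv⟩ := hcop
  set e : Matrix n n ℂ := aeval z (u * X ^ k) with he
  have h1 : ∀ q : ℂ[X], (aeval z (q * X)).trace = 0 := by
    intro q
    induction q using Polynomial.induction_on' with
    | add p q hp hq => rw [add_mul, map_add, Matrix.trace_add, hp, hq, add_zero]
    | monomial j c =>
      rw [← C_mul_X_pow_eq_monomial, mul_assoc, ← pow_succ, map_mul, map_pow, aeval_X, aeval_C,
        Algebra.algebraMap_eq_smul_one, smul_mul_assoc, one_mul, Matrix.trace_smul, h, smul_zero]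
  have h2 : e.trace = 0 := by
    have := h1 (u * X ^ k')
    rwa [mul_assoc, ← pow_succ, ← Nat.succ_eq_add_one, ← hk'] at this
  have h3 : e * e = e := by
    rw [← sub_eq_zero, he, ← map_mul, ← map_sub]
    have : u * X ^ k * (u * X ^ k) - u * X ^ k = -(u * v) * m := by
      rw [hr]
      have : u * X ^ k = 1 - v * r := by rw [← huv]; ring
      calc u * X ^ k * (u * X ^ k) - u * X ^ k = (u * X ^ k) * (u * X ^ k - 1) := by ring
        _ = (u * X ^ k) * (-(v * r)) := by rw [this]; ring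
        _ = _ := by ring
    rw [this, map_mul, hmz, mul_zero]
  have h4 : e = 0 := by
    have h5 : IsIdempotentElem (Matrix.toLin' e) := by
      unfold IsIdempotentElem
      rw [Module.End.mul_eq_comp, ← Matrix.toLin'_mul, h3]
    have h6 := LinearMap.IsIdempotentElem.eq_zero_of_trace_eq_zero h5
      (by rw [Matrix.trace_toLin'_eq]; exact h2)
    exact (LinearEquiv.map_eq_zero_iff _).1 h6
  refine ⟨k, ?_⟩
  have h5 : (X : ℂ[X]) ^ k = X ^ k * (u * X ^ k) + v * m := by
    rw [hr]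
    calc (X : ℂ[X]) ^ k = X ^ k * (u * X ^ k + v * r) := by rw [huv, mul_one]
      _ = _ := by ring
  have h6 : z ^ k = z ^ k * e + aeval z v * aeval z m := by
    have := congrArg (aeval z) h5
    rwa [map_pow, aeval_X, map_add, map_mul (aeval z) (X ^ k) (u * X ^ k),
      map_mul (aeval z) v m, map_pow, aeval_X, ← he] at this
  rw [hmz, h4, mul_zero, mul_zero, add_zero] at h6
  exact h6

/-! ### the configuration -/

/-- A Lie algebra `L` of matrices and the space `C` of matrices which commute with `L` and `p`. -/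
structure Cfg (L C : Submodule ℂ (Matrix n n ℂ)) (p : Matrix n n ℂ) : Prop where
  lie : ∀ x ∈ L, ∀ y ∈ L, x * y - y * x ∈ L
  LC : ∀ x ∈ L, ∀ a ∈ C, x * a = a * x
  hst : ∀ a ∈ C, aᴴ ∈ C
  DC : ∀ M : Matrix n n ℂ, (∀ a ∈ C, M * a = a * M) →
    M ∈ Algebra.adjoin ℂ ({x | x ∈ L} ∪ {p} : Set (Matrix n n ℂ))
  cen : ∀ x : Matrix n n ℂ, (∀ y ∈ L, x * y = y * x) → x * p = p * x → x ∈ C
  pC : p ∈ C
  zst : ∀ z ∈ L, z ∈ C → zᴴ ∈ L

variable {L C : Submodule ℂ (Matrix n n ℂ)} {p : Matrix n n ℂ}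

theorem Cfg.nil_ideal (h : Cfg L C p) (I : Submodule ℂ (Matrix n n ℂ)) (hIL : I ≤ L)
    (hid : ∀ x ∈ L, ∀ i ∈ I, x * i - i * x ∈ I) (hn : ∀ i ∈ I, IsNilpotent i) : I = ⊥ := by
  let W : Submodule ℂ (n → ℂ) :=
    { carrier := {v | ∀ i ∈ I, i *ᵥ v = 0}
      add_mem' := fun {a b} ha hb i hi => by rw [mulVec_add, ha i hi, hb i hi, add_zero]
      zero_mem' := fun i _ => mulVec_zero i
      smul_mem' := fun c a ha i hi => by rw [mulVec_smul, ha i hi, smul_zero] }
  have hWA : ∀ M ∈ Algebra.adjoin ℂ ({x | x ∈ L} ∪ {p} : Set (Matrix n n ℂ)),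
      ∀ w ∈ W, M *ᵥ w ∈ W := by
    intro M hM
    induction hM using Algebra.adjoin_induction with
    | mem x hx =>
      intro w hw i hi
      rcases hx with hx | hx
      · have h1 : i * x = x * i - (x * i - i * x) := by abel
        rw [mulVec_mulVec, h1, sub_mulVec, ← mulVec_mulVec, hw i hi, mulVec_zero,
          hw _ (hid x hx i hi), sub_zero]
      · rw [Set.mem_singleton_iff] at hx
        subst hx
        rw [mulVec_mulVec, h.LC i (hIL hi) x h.pC, ← mulVec_mulVec, hw i hi, mulVec_zero]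
    | algebraMap r =>
      intro w hw
      rw [Algebra.algebraMap_eq_smul_one, smul_mulVec, one_mulVec]
      exact W.smul_mem r hw
    | add x y _ _ hx hy =>
      intro w hw
      rw [add_mulVec]
      exact W.add_mem (hx w hw) (hy w hw)
    | mul x y _ _ hx hy =>
      intro w hw
      rw [← mulVec_mulVec]
      exact hx _ (hy w hw)
  have hW : W = ⊤ := by
    by_contra hne
    obtain ⟨f, hf0, hf⟩ := W.exists_le_ker_of_lt_top (lt_top_iff_ne_top.2 hne)
    let U : Submodule ℂ (n → ℂ) :=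
      { carrier := {u | ∀ w ∈ W, star w ⬝ᵥ u = 0}
        add_mem' := fun {a b} ha hb w hw => by rw [dotProduct_add, ha w hw, hb w hw, add_zero]
        zero_mem' := fun w _ => dotProduct_zero _
        smul_mem' := fun c a ha w hw => by rw [dotProduct_smul, ha w hw, smul_zero] }
    have hUne : U ≠ ⊥ := by
      rw [Submodule.ne_bot_iff]
      refine ⟨fun i => star (f (Pi.single i 1)), fun w hw => ?_, fun h0 => hf0 ?_⟩
      · have h1 : f w = ∑ i, w i * f (Pi.single i 1) := by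
          conv_lhs => rw [pi_eq_sum_univ w]
          rw [map_sum]
          refine Finset.sum_congr rfl fun i _ => ?_
          rw [map_smul, smul_eq_mul]
          congr 2
          ext j
          rw [Pi.single_apply]
          simp only [eq_comm]
        have h2 : f w = 0 := hf hw
        rw [h1] at h2
        have h3 := congrArg star h2
        rw [star_sum, star_zero] at h3
        rw [← h3, dotProduct]
        refine Finset.sum_congr rfl fun i _ => ?_
        rw [star_mul', Pi.star_apply]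
      · refine LinearMap.pi_ext' fun i => LinearMap.ext_ring ?_
        have := congrFun h0 i
        simp only [Pi.zero_apply, star_eq_zero] at this
        simpa using this
    obtain ⟨u, hu, hu0, hk⟩ := engel_mat I (fun x hx y hy => hid x (hIL hx) y hy) hn U
      (fun k hk u hu w hw => by
        have h1 : ∀ a ∈ C, kᴴ * a = a * kᴴ := by
          intro a ha
          have h2 := h.LC k (hIL hk) _ (h.hst a ha)
          have h3 := congrArg conjTranspose h2
          rw [conjTranspose_mul, conjTranspose_mul, conjTranspose_conjTranspose] at h3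
          exact h3.symm
        have h2 := hu _ (hWA _ (h.DC _ h1) w hw)
        rw [star_mulVec, conjTranspose_conjTranspose, ← dotProduct_mulVec] at h2
        exact h2) hUne
    have huW : u ∈ W := hk
    exact hu0 (dotProduct_star_self_eq_zero.1 (hu u huW))
  rw [Submodule.eq_bot_iff]
  intro i hi
  have h1 : ∀ v : n → ℂ, i *ᵥ v = 0 := by
    intro v
    have : v ∈ W := by rw [hW]; trivial
    exact this i hi
  ext a b
  have := congrFun (h1 (Pi.single b 1)) a
  rw [mulVec_single_one] at this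
  exact this

theorem Cfg.ab_ideal (h : Cfg L C p) (J : Submodule ℂ (Matrix n n ℂ)) (hJL : J ≤ L)
    (hid : ∀ x ∈ L, ∀ i ∈ J, x * i - i * x ∈ J) (hab : ∀ i ∈ J, ∀ j ∈ J, i * j = j * i) :
    ∀ x ∈ L, ∀ j ∈ J, x * j = j * x := by
  let K : Submodule ℂ (Matrix n n ℂ) :=
    Submodule.span ℂ {y | ∃ x ∈ L, ∃ j ∈ J, y = x * j - j * x}
  have hKJ : K ≤ J := by
    rw [Submodule.span_le]
    rintro y ⟨x, hx, j, hj, rfl⟩
    exact hid x hx j hj
  have hKi : ∀ x ∈ L, ∀ j ∈ J, x * j - j * x ∈ K := fun x hx j hj =>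
    Submodule.subset_span ⟨x, hx, j, hj, rfl⟩
  have htr : ∀ w : Matrix n n ℂ, (∀ j ∈ J, j * w = w * j) → ∀ k ∈ K, (k * w).trace = 0 := by
    intro w hw k hk
    induction hk using Submodule.span_induction with
    | mem y hy =>
      obtain ⟨x, _, j, hj, rfl⟩ := hy
      rw [sub_mul, trace_sub, sub_eq_zero, mul_assoc, hw j hj, ← mul_assoc, trace_mul_comm,
        mul_assoc]
    | zero => rw [zero_mul, trace_zero]
    | add a b _ _ ha hb => rw [add_mul, trace_add, ha, hb, add_zero]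
    | smul c a _ ha => rw [smul_mul_assoc, trace_smul, ha, smul_zero]
  have hK0 : K = ⊥ := h.nil_ideal K (hKJ.trans hJL) (fun x hx i hi => hKi x hx i (hKJ hi))
    (fun k hk => nilp_of_tr k fun m => by
      rw [pow_succ']
      refine htr _ (fun j hj => ?_) k hk
      exact (Commute.pow_right (hab j hj k (hKJ hk)) m))
  intro x hx j hj
  have := hKi x hx j hj
  rw [hK0, Submodule.mem_bot, sub_eq_zero] at this
  exact this

theorem Cfg.bk_le (h : Cfg L C p) : bk L ≤ L := by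
  rw [bk, Submodule.span_le]
  rintro y ⟨u, hu, v, hv, rfl⟩
  exact h.lie u hu v hv

theorem eq_zero_tr {x : Matrix n n ℂ} (h : (x * xᴴ).trace = 0) : x = 0 :=
  Matrix.trace_mul_conjTranspose_self_eq_zero_iff.1 h

/-- the trace form is nondegenerate on `L` -/
theorem Cfg.nondeg (h : Cfg L C p) : ∀ x ∈ L, (∀ y ∈ L, (x * y).trace = 0) → x = 0 := by
  let R : Submodule ℂ (Matrix n n ℂ) :=
    { carrier := {x | x ∈ L ∧ ∀ y ∈ L, (x * y).trace = 0}
      add_mem' := fun {a b} ha hb => ⟨L.add_mem ha.1 hb.1, fun y hy => by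
        rw [add_mul, trace_add, ha.2 y hy, hb.2 y hy, add_zero]⟩
      zero_mem' := ⟨L.zero_mem, fun y _ => by rw [zero_mul, trace_zero]⟩
      smul_mem' := fun c a ha => ⟨L.smul_mem c ha.1, fun y hy => by
        rw [smul_mul_assoc, trace_smul, ha.2 y hy, smul_zero]⟩ }
  have hRL : R ≤ L := fun x hx => hx.1
  have hRi : ∀ x ∈ L, ∀ r ∈ R, x * r - r * x ∈ R := by
    intro x hx r hr
    refine ⟨h.lie x hx r hr.1, fun y hy => ?_⟩
    have h1 := hr.2 _ (h.lie y hy x hx)
    rw [mul_sub, trace_sub, sub_eq_zero] at h1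
    rw [sub_mul, trace_sub, sub_eq_zero, mul_assoc, trace_mul_comm, mul_assoc, h1, mul_assoc]
  have hb : bk R = ⊥ := by
    refine h.nil_ideal (bk R) ?_ ?_ ?_
    · rw [bk, Submodule.span_le]
      rintro y ⟨u, hu, v, hv, rfl⟩
      exact h.lie u (hRL hu) v (hRL hv)
    · intro x hx i hi
      induction hi using Submodule.span_induction with
      | mem y hy =>
        obtain ⟨u, hu, v, hv, rfl⟩ := hy
        have h1 : x * (u * v - v * u) - (u * v - v * u) * x =
            ((x * u - u * x) * v - v * (x * u - u * x)) +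
            (u * (x * v - v * x) - (x * v - v * x) * u) := by noncomm_ring
        rw [h1]
        exact (bk R).add_mem (bk_mem (hRi x hx u hu) hv) (bk_mem hu (hRi x hx v hv))
      | zero => rw [mul_zero, zero_mul, sub_zero]; exact (bk R).zero_mem
      | add a b _ _ ha hb =>
        have h1 : x * (a + b) - (a + b) * x = (x * a - a * x) + (x * b - b * x) := by
          noncomm_ring
        rw [h1]
        exact (bk R).add_mem ha hb
      | smul c a _ ha =>
        rw [mul_smul_comm, smul_mul_assoc, ← smul_sub]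
        exact (bk R).smul_mem c ha
    · exact cartan_nil R (fun x hx y hy => hRi x hx.1 y hy) (fun x hx y hy => hx.2 y hy.1)
  have hab : ∀ i ∈ R, ∀ j ∈ R, i * j = j * i := by
    intro i hi j hj
    have := bk_mem hi hj
    rw [hb, Submodule.mem_bot, sub_eq_zero] at this
    exact this
  have hc := h.ab_ideal R hRL hRi hab
  intro x hx hx2
  have hxR : x ∈ R := ⟨hx, hx2⟩
  have hxC : x ∈ C := h.cen x (fun y hy => (hc y hy x hxR).symm) (h.LC x hx p h.pC)
  exact eq_zero_tr (hx2 _ (h.zst x hx hxC))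

theorem Cfg.perp (_h : Cfg L C p) {u z : Matrix n n ℂ} (hu : u ∈ bk L)
    (hz : ∀ y ∈ L, z * y = y * z) : (u * z).trace = 0 := by
  induction hu using Submodule.span_induction with
  | mem y hy =>
    obtain ⟨a, ha, b, hb, rfl⟩ := hy
    rw [sub_mul, trace_sub, sub_eq_zero, mul_assoc, ← hz b hb, ← mul_assoc, trace_mul_comm,
      ← mul_assoc]
  | zero => rw [zero_mul, trace_zero]
  | add a b _ _ ha hb => rw [add_mul, trace_add, ha, hb, add_zero]
  | smul c a _ ha => rw [smul_mul_assoc, trace_smul, ha, smul_zero]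

theorem Cfg.cenC (h : Cfg L C p) {z : Matrix n n ℂ} (hz : z ∈ L) (hzC : ∀ y ∈ L, z * y = y * z) :
    z ∈ C := h.cen z hzC (h.LC z hz p h.pC)

theorem Cfg.dec (h : Cfg L C p) : ∀ x ∈ L, ∃ u ∈ bk L, ∃ z ∈ L, z ∈ C ∧ x = u + z := by
  set W : Submodule ℂ (Matrix n n ℂ) := bk L ⊔ (L ⊓ C) with hW
  have hWL : W ≤ L := sup_le h.bk_le inf_le_left
  suffices hh : L ≤ W by
    intro x hx
    obtain ⟨u, hu, z, hz, huz⟩ := Submodule.mem_sup.1 (hh hx)
    exact ⟨u, hu, z, hz.1, hz.2, huz.symm⟩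
  -- the trace form on `L`
  let B : L →ₗ[ℂ] Module.Dual ℂ L :=
    LinearMap.mk₂ ℂ (fun x y : L => ((x : Matrix n n ℂ) * (y : Matrix n n ℂ)).trace)
      (fun a b c => by rw [Submodule.coe_add, add_mul, trace_add])
      (fun c a b => by rw [Submodule.coe_smul, smul_mul_assoc, trace_smul])
      (fun a b c => by rw [Submodule.coe_add, mul_add, trace_add])
      (fun c a b => by rw [Submodule.coe_smul, mul_smul_comm, trace_smul])
  have hBi : Function.Injective B := by
    rw [injective_iff_map_eq_zero]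
    intro x hx
    refine Subtype.ext (h.nondeg x x.2 fun y hy => ?_)
    exact LinearMap.congr_fun hx ⟨y, hy⟩
  have hBs : Function.Surjective B :=
    (LinearMap.injective_iff_surjective_of_finrank_eq_finrank
      (Subspace.dual_finrank_eq (K := ℂ) (V := L)).symm).1 hBi
  by_contra hne
  have hlt : W.comap L.subtype < ⊤ := by
    rw [lt_top_iff_ne_top]
    intro ht
    exact hne fun x hx => by
      have : (⟨x, hx⟩ : L) ∈ W.comap L.subtype := by rw [ht]; trivial
      exact this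
  obtain ⟨f, hf0, hf⟩ := (W.comap L.subtype).exists_le_ker_of_lt_top hlt
  obtain ⟨x, rfl⟩ := hBs f
  have h1 : ∀ w ∈ W, ((x : Matrix n n ℂ) * w).trace = 0 := by
    intro w hw
    have : (⟨w, hWL hw⟩ : L) ∈ W.comap L.subtype := hw
    exact hf this
  have h2 : ∀ y ∈ L, (x : Matrix n n ℂ) * y = y * x := by
    intro y hy
    rw [← sub_eq_zero]
    refine h.nondeg _ (h.lie _ x.2 y hy) fun w hw => ?_
    have h3 := h1 _ (hW ▸ Submodule.mem_sup_left (bk_mem hy hw))
    rw [mul_sub, trace_sub, sub_eq_zero] at h3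
    rw [sub_mul, trace_sub, sub_eq_zero, mul_assoc, h3, mul_assoc, trace_mul_comm, mul_assoc,
      trace_mul_comm, mul_assoc]
  have h3 : (x : Matrix n n ℂ) ∈ C := h.cenC x.2 h2
  have h4 : (x : Matrix n n ℂ)ᴴ ∈ W :=
    Submodule.mem_sup_right ⟨h.zst _ x.2 h3, h.hst _ h3⟩
  have h5 : (x : Matrix n n ℂ) = 0 := eq_zero_tr (h1 _ h4)
  apply hf0
  have h6 : x = 0 := Subtype.ext h5
  rw [h6, map_zero]

theorem Cfg.nondeg_bk (h : Cfg L C p) :
    ∀ u ∈ bk L, (∀ v ∈ bk L, (u * v).trace = 0) → u = 0 := by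
  intro u hu hu2
  refine h.nondeg u (h.bk_le hu) fun y hy => ?_
  obtain ⟨v, hv, z, hz, hzC, rfl⟩ := h.dec y hy
  rw [mul_add, trace_add, hu2 v hv, h.perp hu fun y hy => (h.LC y hy z hzC).symm, add_zero]

theorem Cfg.perf (h : Cfg L C p) : bk L ≤ bk (bk L) := by
  conv_lhs => rw [bk]
  rw [Submodule.span_le]
  rintro y ⟨a, ha, b, hb, rfl⟩
  obtain ⟨u, hu, z, hz, hzC, rfl⟩ := h.dec a ha
  obtain ⟨v, hv, w, hw, hwC, rfl⟩ := h.dec b hb
  have h1 : z * v = v * z := (h.LC v (h.bk_le hv) z hzC).symm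
  have h2 : z * w = w * z := (h.LC w hw z hzC).symm
  have h3 : u * w = w * u := h.LC u (h.bk_le hu) w hwC
  have h4 : (u + z) * (v + w) - (v + w) * (u + z) = u * v - v * u := by
    rw [add_mul, mul_add, mul_add, add_mul, mul_add, mul_add, h1, h2, h3]
    abel
  rw [h4]
  exact bk_mem hu hv

theorem Cfg.noab (h : Cfg L C p) : ∀ J : Submodule ℂ (Matrix n n ℂ), J ≤ bk L →
    (∀ u ∈ bk L, ∀ j ∈ J, u * j - j * u ∈ J) → (∀ i ∈ J, ∀ j ∈ J, i * j = j * i) → J = ⊥ := by
  intro J hJ hid hab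
  have hid' : ∀ x ∈ L, ∀ j ∈ J, x * j - j * x ∈ J := by
    intro x hx j hj
    obtain ⟨u, hu, z, hz, hzC, rfl⟩ := h.dec x hx
    have h1 : z * j = j * z := (h.LC j (h.bk_le (hJ hj)) z hzC).symm
    have h2 : (u + z) * j - j * (u + z) = u * j - j * u := by
      rw [add_mul, mul_add, h1]
      abel
    rw [h2]
    exact hid u hu j hj
  have hc := h.ab_ideal J (hJ.trans h.bk_le) hid' hab
  rw [Submodule.eq_bot_iff]
  intro j hj
  have hjL := h.bk_le (hJ hj)
  have hjC : j ∈ C := h.cenC hjL fun y hy => (hc y hy j hj).symm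
  exact eq_zero_tr (h.perp (hJ hj) fun y hy => (h.LC y hy _ (h.hst j hjC)).symm)

/-- Fuglede's theorem for matrices -/
theorem fuglede {α : Type} [Fintype α] [DecidableEq α] {A N : Matrix α α ℂ}
    (hN : N * Nᴴ = Nᴴ * N) (hA : A * N = N * A) : A * Nᴴ = Nᴴ * A := by
  rw [← sub_eq_zero]
  have hA' : Nᴴ * Aᴴ = Aᴴ * Nᴴ := by
    have := congrArg conjTranspose hA
    rwa [conjTranspose_mul, conjTranspose_mul] at this
  refine Matrix.trace_mul_conjTranspose_self_eq_zero_iff.1 ?_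
  rw [conjTranspose_sub, conjTranspose_mul, conjTranspose_mul, conjTranspose_conjTranspose]
  -- tr ((A N* - N* A) (N A* - A* N))
  have e1 : (A * Nᴴ * (N * Aᴴ)).trace = (A * (Nᴴ * N * Aᴴ)).trace := by
    simp only [mul_assoc]
  have e2 : (A * Nᴴ * (Aᴴ * N)).trace = (A * (Aᴴ * Nᴴ * N)).trace := by
    have : A * Nᴴ * (Aᴴ * N) = A * ((Nᴴ * Aᴴ) * N) := by simp only [mul_assoc]
    rw [this, hA']
  have e3 : (Nᴴ * A * (N * Aᴴ)).trace = (A * (N * (Aᴴ * Nᴴ))).trace := by
    have : Nᴴ * A * (N * Aᴴ) = Nᴴ * (A * (N * Aᴴ)) := by simp only [mul_assoc]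
    rw [this, trace_mul_comm]
    simp only [mul_assoc]
  have e4 : (Nᴴ * A * (Aᴴ * N)).trace = (A * (Aᴴ * N * Nᴴ)).trace := by
    have : Nᴴ * A * (Aᴴ * N) = Nᴴ * (A * (Aᴴ * N)) := by simp only [mul_assoc]
    rw [this, trace_mul_comm]
    simp only [mul_assoc]
  have e5 : A * (Nᴴ * N * Aᴴ) = A * (N * (Aᴴ * Nᴴ)) := by
    rw [← hN, mul_assoc N, hA']
  have e6 : Aᴴ * Nᴴ * N = Aᴴ * N * Nᴴ := by rw [mul_assoc, ← hN, ← mul_assoc]
  rw [sub_mul, mul_sub, mul_sub, trace_sub, trace_sub, trace_sub, e1, e2, e3, e4, e5, e6]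
  ring

end Pool.Agent.E8helper44.TW
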