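import Pool.Agent.E8helper1.TW.Stm
import Pool.Agent.E8helper44.TW.Core

/-!
# TW S_RED: the annihilator of the Tate tensors is reductive
-/

set_option autoImplicit false

namespace Pool.Agent.E8helper44.TW

open Matrix Module
open Pool.Agent.E8helper1.TX Pool.Agent.E8helper56.TX Pool.Agent.E8helper56.TY
open Pool.Agent.E8helper1.TW (TD brk IsSS S_RED)

variable {n : Type} [Fintype n] [DecidableEq n]

/-- the matrices in `T 1` -/
def Cm (T : ∀ m, Submodule ℂ (Op n m)) : Submodule ℂ (Matrix n n ℂ) where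
  carrier := {a | o1 a ∈ T 1}
  add_mem' := fun {a b} ha hb => (T 1).add_mem ha hb
  zero_mem' := (T 1).zero_mem
  smul_mem' := fun c a ha => (T 1).smul_mem c ha

theorem cfg {T : ∀ m, Submodule ℂ (Op n m)} {p : Matrix n n ℂ} (h : TD T p) :
    Cfg (Ann T) (Cm T) p where
  lie := fun x hx y hy => Ann_lie hx hy
  LC := fun x hx a ha => ((o1_comm a x).1 (hx 1 (o1 a) ha)).symm
  hst := h.star
  DC := h.DC
  cen := fun x hx hp => by
    refine h.L2 1 (o1 x) (fun y hy => (o1_comm x y).2 (hx y hy)) ?_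
    rw [tpow_one1, o1_mul, o1_mul, hp]
  pC := h.p_mem
  zst := fun z hz hzC => by
    have hzz : zᴴ * z = z * zᴴ :=
      (((o1_comm zᴴ z).1 (hz 1 (o1 zᴴ) (h.star z hzC))))
    intro m A hA
    rw [dpow_star]
    refine fuglede ?_ (hz m A hA)
    have h1 := dpow_comm (m := m) z zᴴ
    rw [hzz, sub_self] at h1
    have h0 : dpow (0 : Matrix n n ℂ) m = 0 := by
      ext I J
      simp [dpow]
    rw [h0, dpow_star] at h1
    exact sub_eq_zero.1 h1.symm

theorem t_RED : S_RED := by
  intro n _ _ T p h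
  have hc := cfg h
  exact ⟨⟨fun u hu v hv => bk_mem (hc.bk_le hu) (hc.bk_le hv), hc.nondeg_bk, hc.perf, hc.noab⟩, hc.dec,
    hc.zst⟩

end Pool.Agent.E8helper44.TW
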